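import Pool.Agent.Helper45.SP.GoalsF

/-! Packet LAD: the adjoint action of an element near the identity. -/

open Complex Metric Set Filter Topology
open scoped ContDiff ComplexConjugate

namespace Pool.Agent.Helper56.SP

open Pool.Agent.Helper95.Lin Pool.Agent.Helper10.SP Pool.Agent.Helper45.SP

theorem near_mono {b : ℕ} {z₀ : Cn b} {ρ ρ' : ℝ} {f : Cn b → Cn b} {s s' : ℝ} (h : Near z₀ ρ f s)
    (hρ : ρ' ≤ ρ) (hs : s ≤ s') : Near z₀ ρ' f s' :=
  fun z hz => (h z (ball_subset_ball hρ hz)).trans hs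

theorem near_mapsTo {b : ℕ} {z₀ : Cn b} {ρ ρ' ρ'' : ℝ} {f : Cn b → Cn b} {s : ℝ}
    (h : Near z₀ ρ f s) (hρ : ρ' ≤ ρ) (hs : ρ' + s ≤ ρ'') : MapsTo f (ball z₀ ρ') (ball z₀ ρ'') := by
  intro z hz
  have h1 := h z (ball_subset_ball hρ hz)
  rw [mem_ball] at hz ⊢
  rw [← dist_eq_norm] at h1
  have h2 := dist_triangle (f z) z z₀
  linarith

theorem LAD (hLCONV : S_LCONV) (hLMUL : S_LMUL) (hLTRANS : S_LTRANS) : S_LAD := by
  intro b z₀ r A hA
  have hr : 0 < r := hA.pos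
  have hr1 : 3 * r / 4 < r := by linarith
  obtain ⟨η₁, hη₁, H1⟩ := hLMUL hA (3 * r / 4) hr1 1 one_pos
  obtain ⟨η₂, hη₂, H2⟩ := hLMUL hA (3 * r / 4) hr1 (min η₁ (r / 8))
    (lt_min hη₁ (by linarith))
  obtain ⟨η₃, hη₃, H3⟩ := hLCONV hA z₀ (r / 2) (by linarith) (ball_subset_ball (by linarith))
    (3 * r / 4) hr1 (η₁ / 2) (by linarith)
  refine ⟨min (min η₁ η₂) (min η₃ (r / 8)), lt_min (lt_min hη₁ hη₂) (lt_min hη₃ (by linarith)), ?_⟩
  intro t ht hnt W hW
  have n1 : Near z₀ (r / 2) t.g η₁ :=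
    near_mono hnt le_rfl ((min_le_left _ _).trans (min_le_left _ _))
  have n2 : Near z₀ (r / 2) t.g η₂ :=
    near_mono hnt le_rfl ((min_le_left _ _).trans (min_le_right _ _))
  have n3 : Near z₀ (r / 2) t.g η₃ :=
    near_mono hnt le_rfl ((min_le_right _ _).trans (min_le_left _ _))
  have n4 : Near z₀ (r / 2) t.g (r / 8) :=
    near_mono hnt le_rfl ((min_le_right _ _).trans (min_le_right _ _))
  obtain ⟨-, -, u, hu, hut, htu, -, hnu⟩ := H2 t ht n2
  have hnu1 : Near z₀ (3 * r / 4) u.g η₁ := near_mono hnu le_rfl (min_le_left _ _)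
  have hnu2 : Near z₀ (3 * r / 4) u.g (r / 8) := near_mono hnu le_rfl (min_le_right _ _)
  have ht4 : Near z₀ (3 * r / 4) t.g (η₁ / 2) := H3 t ht n3
  have htd : DifferentiableOn ℂ t.g (ball z₀ (r / 2)) :=
    (hA.g_holo t ht).mono (ball_subset_ball (by linarith))
  have hud : DifferentiableOn ℂ u.g (ball z₀ (r / 4)) :=
    (hA.g_holo u hu).mono (ball_subset_ball (by linarith))
  have hmt : MapsTo t.g (ball z₀ (r / 2)) (ball z₀ r) := near_mapsTo n4 le_rfl (by linarith)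
  have hmu : MapsTo u.g (ball z₀ (r / 4)) (ball z₀ (r / 2)) :=
    near_mapsTo hnu2 (by linarith) (by linarith)
  have hconj : ∃ η > 0, ∀ s ∈ A, Near z₀ (r / 2) s.g η → ∃ t' ∈ A, ∃ e > 0, ∀ z ∈ ball z₀ e,
      t'.g (t.g z) = t.g (s.g z) := by
    refine ⟨min (η₁ / 2) (r / 8), lt_min (by linarith) (by linarith), ?_⟩
    intro s hs hns
    have s1 : Near z₀ (r / 2) s.g (η₁ / 2) := near_mono hns le_rfl (min_le_left _ _)
    have s2 : Near z₀ (r / 2) s.g (r / 8) := near_mono hns le_rfl (min_le_right _ _)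
    have s3 : Near z₀ (r / 2) s.g η₁ := near_mono s1 le_rfl (by linarith)
    have hms : MapsTo s.g (ball z₀ (r / 2)) (ball z₀ (3 * r / 4)) :=
      near_mapsTo s2 le_rfl (by linarith)
    obtain ⟨-, v, hv, hveq⟩ := (H1 t ht n1).1 s hs s3
    have hnv : Near z₀ (r / 2) v.g η₁ := by
      intro z hz
      have hz' : z ∈ ball z₀ (3 * r / 4) := ball_subset_ball (by linarith) hz
      have e1 : v.g z = t.g (s.g z) := (hveq z hz').1
      have e2 := ht4 (s.g z) (hms hz)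
      have e3 := s1 z hz
      rw [e1]
      calc ‖t.g (s.g z) - z‖ = ‖(t.g (s.g z) - s.g z) + (s.g z - z)‖ := by congr 1; abel
        _ ≤ ‖t.g (s.g z) - s.g z‖ + ‖s.g z - z‖ := norm_add_le _ _
        _ ≤ η₁ / 2 + η₁ / 2 := add_le_add e2 e3
        _ = η₁ := by ring
    obtain ⟨-, w, hw, hweq⟩ := (H1 v hv hnv).1 u hu (near_mono hnu1 (by linarith) le_rfl)
    refine ⟨w, hw, r / 4, by linarith, ?_⟩
    intro z hz
    have hz1 : z ∈ ball z₀ (3 * r / 4) := ball_subset_ball (by linarith) hz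
    have hz2 : t.g z ∈ ball z₀ (3 * r / 4) :=
      near_mapsTo n4 (by linarith : r / 4 ≤ r / 2) (by linarith) hz
    have e1 : w.g (t.g z) = v.g (u.g (t.g z)) := (hweq _ hz2).1
    have e2 : u.g (t.g z) = z := (hut z hz1).1
    have e3 : v.g z = t.g (s.g z) := (hveq z hz1).1
    rw [e1, e2, e3]
  obtain ⟨V', hV', hVeq⟩ := hLTRANS hA hA z₀ z₀ (r / 2) (r / 4) t.g u.g (by linarith) (by linarith)
    (ball_subset_ball (by linarith)) (ball_subset_ball (by linarith)) htd hmt hud hmu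
    (fun w hw => (htu w (ball_subset_ball (by linarith) hw)).1) hconj W hW
  exact ⟨V', hV', fun z hz => hVeq z hz⟩

end Pool.Agent.Helper56.SP
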