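import Pool.Agent.Helper45.SP.GoalsF

/-! Packet PEX: powers exist as long as they are near the identity. -/

open Complex Metric Set Filter Topology
open scoped ContDiff ComplexConjugate

namespace Pool.Agent.Helper56.SP

open Pool.Agent.Helper95.Lin Pool.Agent.Helper10.SP Pool.Agent.Helper45.SP

theorem PEX (hLCONV : S_LCONV) : S_PEX := by
  intro b z₀ r A hA ρ hρ hρr
  obtain ⟨η, hη, hmul⟩ := hA.mul
  have hr := hA.pos
  obtain ⟨c, hc, H⟩ := hLCONV hA z₀ ρ hρ (ball_subset_ball hρr.le) (r / 2) (by linarith) η hη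
  refine ⟨c, hc, fun t ht hnt => ?_⟩
  have hstep : ∀ s : A, ∃ s' : A, Near z₀ ρ s.1.g c → IsMul z₀ s'.1 t s.1 := by
    intro s
    by_cases hs : Near z₀ ρ s.1.g c
    · obtain ⟨u, hu, d, hd, hud⟩ := hmul t ht s.1 s.2 (H t ht hnt) (H s.1 s.2 hs)
      exact ⟨⟨u, hu⟩, fun _ => ⟨d, hd, hud⟩⟩
    · exact ⟨s, fun h => absurd h hs⟩
  choose f hf using hstep
  obtain ⟨e, he, hone⟩ := hA.one
  let u : ℕ → A := fun l => Nat.rec (⟨e, he⟩ : A) (fun _ s => f s) l
  exact ⟨fun l => (u l).1, fun l => (u l).2, hone, fun l hl => hf (u l) hl⟩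

end Pool.Agent.Helper56.SP
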