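import Pool.Agent.Helper10.SP.GoalsC
import Pool.Agent.Helper16.Abund.Basic

/-! Packet TRS: transition of special maps. -/

open Complex Metric Set Filter Topology MeasureTheory
open scoped ContDiff ComplexConjugate ComplexOrder Manifold

namespace Pool.Agent.Helper56.SP

open Pool.Agent.Helper95.Lin Pool.Agent.Helper16.Abund Pool.Agent.Helper92.Orb
open Pool.Agent.Helper10.SP

universe u v

theorem base_pt {b : ℕ} (z : Cn b) (w : ℂ) : base (pt z w) = z := by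
  funext i
  simp [base, pt]

theorem lc_pt {b : ℕ} (z : Cn b) (w : ℂ) : lc (pt z w) = w := by
  simp [lc, pt]

theorem pt_base_lc {b : ℕ} (x : Cn (b + 1)) : pt (base x) (lc x) = x := by
  funext i
  refine Fin.addCases (fun j => ?_) (fun j => ?_) i
  · simp [pt, base]
  · have : j = 0 := Subsingleton.elim _ _
    subst this
    simp [pt, lc]

theorem continuous_base {b : ℕ} : Continuous (base : Cn (b + 1) → Cn b) :=
  continuous_pi fun _ => continuous_apply _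

theorem continuous_lc {b : ℕ} : Continuous (lc : Cn (b + 1) → ℂ) := continuous_apply _

theorem isOpen_prodS {b : ℕ} {U : Set (Cn b)} {Δ : Set ℂ} (hU : IsOpen U) (hΔ : IsOpen Δ) :
    IsOpen (prodS U Δ) :=
  (hU.preimage continuous_base).inter (hΔ.preimage continuous_lc)

theorem prodS_ball_subset {b : ℕ} (x : Cn (b + 1)) {ρ : ℝ} (hρ : 0 < ρ) :
    prodS (ball (base x) ρ) (ball (lc x) ρ) ⊆ ball x ρ := by
  intro y hy
  obtain ⟨h1, h2⟩ := hy
  rw [mem_ball] at h1 h2 ⊢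
  rw [dist_pi_lt_iff hρ] at h1 ⊢
  intro i
  refine Fin.addCases (fun j => ?_) (fun j => ?_) i
  · exact h1 j
  · have : j = 0 := Subsingleton.elim _ _
    subst this
    exact h2

theorem trs (hPARB : S_PARB.{u, v}) (hAFFT : S_AFFT) : S_TRS.{u, v} := by
  intro b G M _ _ _ _ _ _ h v hD U U' Δ Δ' ψ ψ' Ψ Ψ' hU hU' hΔ hΔ' hS hS' γ x hx x' hx' hxx
  obtain ⟨hP1, hP2, hP3, -, -⟩ := hPARB hD
  obtain ⟨sp, sc, spos, slp⟩ := hS
  obtain ⟨sp', sc', spos', slp'⟩ := hS'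
  obtain ⟨τ, A, W, hA, hW, hxA, hxW, hAV, hWV, hτ, hinj, hmaps, hτx, hdet, hiff⟩ :=
    hP3 _ _ ψ ψ' sp sp' γ x hx x' hx' hxx
  obtain ⟨ρ, hρ, hball⟩ := Metric.isOpen_iff.1 hA x hxA
  have hsub : prodS (ball (base x) ρ) (ball (lc x) ρ) ⊆ A :=
    (prodS_ball_subset x hρ).trans hball
  have hopen : IsOpen (prodS (ball (base x) ρ) (ball (lc x) ρ)) :=
    isOpen_prodS isOpen_ball isOpen_ball
  have hmemp : ∀ z ∈ ball (base x) ρ, ∀ w ∈ ball (lc x) ρ,
      pt z w ∈ prodS (ball (base x) ρ) (ball (lc x) ρ) := by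
    intro z hz w hw
    refine ⟨?_, ?_⟩
    · rw [base_pt]; exact hz
    · rw [lc_pt]; exact hw
  have hcl : lc x ∈ ball (lc x) ρ := mem_ball_self hρ
  have hcb : base x ∈ ball (base x) ρ := mem_ball_self hρ
  have hUsub : ball (base x) ρ ⊆ U := by
    intro z hz
    have := (hAV (hsub (hmemp z hz _ hcl))).1
    rwa [base_pt] at this
  have hΔsub : ball (lc x) ρ ⊆ Δ := by
    intro w hw
    have := (hAV (hsub (hmemp _ hcb w hw))).2
    rwa [lc_pt] at this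
  have hτV : ∀ y ∈ A, τ y ∈ prodS U' Δ' := fun y hy => hWV (hmaps hy)
  have heq : ∀ y ∈ A, γ • ψ y = ψ' (τ y) := fun y hy => (hiff y hy (τ y) (hmaps hy)).2 rfl
  -- the potentials
  have hpot : ∀ y ∈ A, Ψ (base y) = Ψ' (base (τ y)) + Real.log (‖(fderiv ℂ τ y).det‖ ^ 2) := by
    intro y hy
    have e1 := (hP2 γ _ ψ sp).2 y (hAV hy)
    have e2 := ((hP1 _ A ψ' τ sp' hA hτ hτV hdet).2 y hy).2
    have hev : (fun z => γ • ψ z) =ᶠ[𝓝 y] (ψ' ∘ τ) := by
      filter_upwards [hA.mem_nhds hy] with z hz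
      exact heq z hz
    have e3 : lpot (b + 1) v (fun z => γ • ψ z) y = lpot (b + 1) v (ψ' ∘ τ) y := by
      unfold lpot
      rw [jac_congr hev]
      congr 3
      exact heq y hy
    rw [e1, e2, slp y (hAV hy), slp' (τ y) (hτV y hy)] at e3
    exact e3
  obtain ⟨t, ht1, ht2, ht3, ht4, ht5⟩ := hAFFT (ball (base x) ρ) U' (lc x) ρ isOpen_ball hU' hρ
    Ψ Ψ' (sc.mono hUsub) sc' spos' τ (hτ.mono hsub) (fun y hy =>
      ⟨(hτV y (hsub hy)).1, hdet y (hsub hy), hpot y (hsub hy)⟩)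
  refine ⟨ρ, hρ, t, hUsub, hΔsub, ⟨ht1, ht2, ht3⟩, ?_, ?_, ?_⟩
  · rw [← hτx]
    conv_lhs => rw [← pt_base_lc x]
    rw [ht5 _ hcb _ hcl]
  · intro z hz
    obtain ⟨a1, a2, a3, a4⟩ := ht4 z hz
    exact ⟨a1, a2, a3, a4⟩
  · intro z hz w hw
    have hin := hsub (hmemp z hz w hw)
    have b1 := (hτV _ hin).2
    have b2 := heq _ hin
    rw [ht5 z hz w hw] at b1 b2
    rw [lc_pt] at b1
    exact ⟨b1, b2⟩

end Pool.Agent.Helper56.SP
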